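import Mathlib
import Pool.Agent.W484.CK.HigherMain

/-!
# The Tate conjecture for higher Chow groups of products with almost all abelian varieties

Let `g i` (`i` in a finite set `I`) be positive integers, `r` an integer smaller than all the `g i`
and `E` a number field.  For a prime power `q` let `S i` be the set of the characteristic
polynomials of Frobenius of the ordinary abelian varieties of dimension `g i` over the field with `q`
elements, or of all abelian varieties of dimension `g i`, or any set in between.  By Weil, Honda and
Tate its elements correspond to the isogeny classes, the first set contains `ordinaryWeilPolys q
(g i)`, and the second one is contained in `weilPolys q (g i)`.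

The theorem: for all families `f i` in `S i` with the exception of a proportion
`O (q ^ (-1 / 6) log q)`, the constant depending only on `g` and `E`, the following holds for all
`s > 0`, `Q = q ^ s`, all abelian varieties `A` over the field with `Q` elements which are isogenous
to products of powers of abelian varieties coming from the field with `q` elements, with
characteristic polynomials `f i`, and **all** smooth varieties `U` over the field with `Q` elements,
projective or not, such that the eigenvalues of Frobenius on the cohomology of `U` and their
conjugates generate a group of rank at most `r` modulo the group of the numbers with a power in `E`:

**the cycle class maps `CH^j (A × U, n) ⊗ K → H^(2 j - n) (A × U) (j) ^ G` are surjective for all `j`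
if and only if the cycle class maps `CH^j (U, n) ⊗ K → H^(2 j - n) (U) (j) ^ G` are surjective for
all `j`**, for every `n` separately.

Nothing is assumed about `U`, apart from the eigenvalues.  For `r = 0` the assumption is: the
eigenvalues of Frobenius and their conjugates have powers in `E`.  So for any given smooth variety
`U` over the field with `q'` elements we can take for `E` the field generated by the eigenvalues
of Frobenius and their conjugates, and apply the theorem to the powers `q` of `q'`: for almost all
abelian varieties `A` over a large extension the conjecture for `A × U` follows from the one for
`U`. The bound `r < g i` is sharp: for `U = A i` the group of endomorphisms of `A i` contributes.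

The formal framework is as follows (`TheoryData`, `IsChow`, `IsWeil` are taken from helper492). `C`
are the Chow groups with rational coefficients, `H` is a Weil cohomology theory with coefficients in
an algebraically closed field `K` on a class `𝒱` of smooth proper varieties, which contains `A`
and the point `P`. For fixed `U` and `n` we consider, for `X` in `𝒱`,
`T^j(X) = CH^j(X × U, n) ⊗ K` and `W^j(X) = H^(2 j - n)(X × U)`; these are theories on which the
correspondences between smooth proper varieties act (`IsCoef`), with an endomorphism `frob` induced
by the Frobenius endomorphism of `U`, and the cycle class map `c` from `T` to `W` is compatible with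
correspondences and `frob` (`IsCoefHom`). Here `A × P = A`. The theorem holds for all such `T`, `W`,
`c`, such that `frob` satisfies on `W(A) = H(A) ⊗ H(U)` an equation of rank at most `r` over `E`.

The idea of the proof: by a sieve (helper521), which only uses the primes that split completely in
the Galois closure of `E` - these have positive density by the theorem of Chebotarev, formalized by
helper401 - almost all families are such that each pair `α`, `q / α` of roots can be exchanged by a
Galois automorphism which fixes all the other roots of all the `f i` and also all elements of `E`.
This implies that the eigenvalues of Frobenius on the cohomology of `A` which are of the form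
`Q ^ j / ρ`, `ρ` an eigenvalue of `frob`, are powers of `Q` with eigenvectors in the span of the
products of divisors. Let `p` be the projector given by the products of divisors `D l` and dual
classes `E l`. A suitable polynomial `G` in Frobenius is such that `(1 - p) G` is homologically
trivial, hence nilpotent (Kimura), and prime to the equation for `Q ^ j / frob`. So `p` is the
identity on Tate classes: they are sums of products of the `D l` and of Tate classes in the
cohomology of `U`.
-/

set_option autoImplicit false

namespace Pool.Agent.Results.MP_81b968_ag.AlmostAllAbelianFactors

open Polynomial Pool.Agent.W521.Descent Pool.Agent.W521.Count Pool.Agent.W484.TB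
  Pool.Agent.W484.CK

/-- `weilPolys q g` is the set of monic integral polynomials of degree `2 g` with constant term
`q ^ g` and all roots of absolute value `√q`; `ordinaryWeilPolys q g` is the subset of those
whose coefficient of index `g` is prime to `q`. -/
theorem result {I : Type} [Fintype I] (g : I → ℕ) (r : ℕ) (hr : ∀ i, r < g i)
    (E : IntermediateField ℚ ℂ) [FiniteDimensional ℚ E] :
    ∃ C : ℝ, ∀ q : ℕ, IsPrimePow q → ∀ S : I → Set ℤ[X],
      (∀ i, ordinaryWeilPolys q (g i) ⊆ S i ∧ S i ⊆ weilPolys q (g i)) →
      (∀ i, (S i).Finite ∧ (S i).Nonempty) ∧
      ({f : I → ℤ[X] | (∀ i, f i ∈ S i) ∧ ¬ HigherSurjForRankOver E q r f}.ncard : ℝ) ≤
        C * (Real.log q * (q : ℝ) ^ (-(1 / 6) : ℝ)) * ∏ i, ((S i).ncard : ℝ) :=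
  count_of_goodU (splitPrimes E) (dense_splitPrimes E) g
    (fun i => (Nat.zero_le r).trans_lt (hr i)) (fun q f => HigherSurjForRankOver E q r f)
    fun _ hq x hx => higherSurjForRankOver_of_good g E hq.one_lt r hr x hx

end Pool.Agent.Results.MP_81b968_ag.AlmostAllAbelianFactors
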